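import Mathlib

/-!
Binomial weights and their upper tails.
-/

set_option autoImplicit false

open Finset

namespace Pool.Agent.Lib.MP_eb6a62_co

/-- the probability that a binomial random variable takes the value `y` -/
noncomputable def bin (n : ℕ) (p : ℝ) (y : ℕ) : ℝ :=
  (n.choose y : ℝ) * (p ^ y * (1 - p) ^ (n - y))

lemma bin_nonneg {n : ℕ} {p : ℝ} (h0 : 0 ≤ p) (h1 : p < 1) (y : ℕ) : 0 ≤ bin n p y := by
  have : 0 ≤ 1 - p := by linarith
  unfold bin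
  positivity

lemma bin_pos {n : ℕ} {p : ℝ} (h0 : 0 < p) (h1 : p < 1) {y : ℕ} (hy : y ≤ n) :
    0 < bin n p y := by
  have h2 : 0 < 1 - p := by linarith
  have h3 : 0 < n.choose y := Nat.choose_pos hy
  unfold bin
  positivity

lemma bin_succ {n : ℕ} (p : ℝ) {y : ℕ} (hy : y < n) :
    bin n p (y + 1) * ((y + 1) * (1 - p)) = bin n p y * ((n - y) * p) := by
  have h : ((n.choose (y + 1) : ℕ) : ℝ) * (y + 1) = (n.choose y : ℝ) * (n - y) := by
    have h2 := Nat.choose_succ_right_eq n y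
    have h3 : ((n.choose (y + 1) * (y + 1) : ℕ) : ℝ) = ((n.choose y * (n - y) : ℕ) : ℝ) := by
      rw [h2]
    push_cast [Nat.cast_sub hy.le] at h3
    exact h3
  have h4 : n - y = (n - (y + 1)) + 1 := by omega
  unfold bin
  rw [h4, pow_succ, pow_succ]
  calc (n.choose (y + 1) : ℝ) * (p ^ y * p * (1 - p) ^ (n - (y + 1))) * ((y + 1) * (1 - p))
      = ((n.choose (y + 1) : ℕ) : ℝ) * (y + 1) * (p ^ y * p * (1 - p) ^ (n - (y + 1)) * (1 - p)) := by
        ring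
    _ = _ := by rw [h]; ring

lemma bin_succ_le {n : ℕ} {p : ℝ} (h0 : 0 ≤ p) (h1 : p < 1) {x y : ℕ} (hxy : x ≤ y)
    (hy : y < n) {ρ : ℝ} (hρ0 : 0 ≤ ρ)
    (hρ : ((n : ℝ) - x) * p ≤ ρ * (((x : ℝ) + 1) * (1 - p))) :
    bin n p (y + 1) ≤ ρ * bin n p y := by
  have hq : 0 < 1 - p := by linarith
  have h2 := bin_succ p hy
  have hxy' : (x : ℝ) ≤ y := by exact_mod_cast hxy
  have h3 : ((n : ℝ) - y) * p ≤ ρ * (((y : ℝ) + 1) * (1 - p)) := by
    have h4 : ((n : ℝ) - y) * p ≤ ((n : ℝ) - x) * p :=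
      mul_le_mul_of_nonneg_right (by linarith) h0
    have h5 : ρ * (((x : ℝ) + 1) * (1 - p)) ≤ ρ * (((y : ℝ) + 1) * (1 - p)) :=
      mul_le_mul_of_nonneg_left (mul_le_mul_of_nonneg_right (by linarith) hq.le) hρ0
    linarith
  have h6 : 0 < ((y : ℝ) + 1) * (1 - p) := by positivity
  have h7 := mul_le_mul_of_nonneg_left h3 (bin_nonneg h0 h1 y (n := n))
  rw [← h2] at h7
  have h8 : bin n p (y + 1) * (((y : ℝ) + 1) * (1 - p))
      ≤ ρ * bin n p y * (((y : ℝ) + 1) * (1 - p)) := by linarith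
  exact le_of_mul_le_mul_right h8 h6

lemma bin_tail {n : ℕ} {p : ℝ} (h0 : 0 ≤ p) (h1 : p < 1) {x : ℕ} (hx : x ≤ n) {ρ : ℝ}
    (hρ0 : 0 ≤ ρ) (hρ1 : ρ ≤ 1 / 2)
    (hρ : ((n : ℝ) - x) * p ≤ ρ * (((x : ℝ) + 1) * (1 - p))) :
    ∑ y ∈ Ico (x + 1) (n + 1), bin n p y ≤ 2 * ρ * bin n p x := by
  set T := ∑ y ∈ Ico (x + 1) (n + 1), bin n p y with hT
  have hT0 : 0 ≤ T := Finset.sum_nonneg fun y _ => bin_nonneg h0 h1 y
  have h2 : T = ∑ y ∈ Ico x n, bin n p (y + 1) := by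
    rw [hT, Finset.sum_Ico_add']
  have h3 : ∑ y ∈ Ico x n, bin n p (y + 1) ≤ ρ * ∑ y ∈ Ico x n, bin n p y := by
    rw [Finset.mul_sum]
    refine Finset.sum_le_sum fun y hy => ?_
    rw [Finset.mem_Ico] at hy
    exact bin_succ_le h0 h1 hy.1 hy.2 hρ0 hρ
  have h4 : ∑ y ∈ Ico x n, bin n p y ≤ bin n p x + T := by
    have h5 : ∑ y ∈ Ico x (n + 1), bin n p y = bin n p x + T := by
      rw [hT]
      exact Finset.sum_eq_sum_Ico_succ_bot (by omega) _
    rw [← h5]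
    refine Finset.sum_le_sum_of_subset_of_nonneg ?_ fun y _ _ => bin_nonneg h0 h1 y
    exact Finset.Ico_subset_Ico_right (by omega)
  have h6 : T ≤ ρ * (bin n p x + T) :=
    h2.le.trans (h3.trans (mul_le_mul_of_nonneg_left h4 hρ0))
  have h7 : ρ * T ≤ 1 / 2 * T := mul_le_mul_of_nonneg_right hρ1 hT0
  linarith

/-- sums over subsets of functions of the size -/
lemma sum_card {n : ℕ} (p : ℝ) (h : ℕ → ℝ) :
    ∑ B : Finset (Fin n), p ^ B.card * (1 - p) ^ (Fintype.card (Fin n) - B.card) * h B.card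
      = ∑ y ∈ range (n + 1), bin n p y * h y := by
  have h2 := Finset.sum_powerset_apply_card
    (fun y => p ^ y * (1 - p) ^ (n - y) * h y) (x := (Finset.univ : Finset (Fin n)))
  rw [Finset.powerset_univ] at h2
  simp only [Finset.card_univ, Fintype.card_fin] at h2 ⊢
  rw [h2]
  refine Finset.sum_congr rfl fun y _ => ?_
  unfold bin
  rw [nsmul_eq_mul]
  ring

end Pool.Agent.Lib.MP_eb6a62_co
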