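import Pool.Agent.Lib.MP_eb6a62_co.Defs

/-!
Transfer along equivalences, disjoint unions, and many disjoint copies of a family.
-/

set_option autoImplicit false
set_option linter.unusedSectionVars false

open Finset

namespace Pool.Agent.Lib.MP_eb6a62_co

section basic
variable {α : Type*} [Fintype α] [DecidableEq α]

/-- the weight of a subset -/
noncomputable def wt (p : ℝ) (B : Finset α) : ℝ :=
  p ^ B.card * (1 - p) ^ (Fintype.card α - B.card)

lemma wt_nonneg {p : ℝ} (h0 : 0 ≤ p) (h1 : p ≤ 1) (B : Finset α) : 0 ≤ wt p B := by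
  have : 0 ≤ 1 - p := by linarith
  unfold wt
  positivity

lemma sum_wt (p : ℝ) : ∑ B : Finset α, wt p B = 1 := by
  have h := Finset.prod_add (fun _ : α => p) (fun _ : α => 1 - p) Finset.univ
  simp only [Finset.prod_const] at h
  rw [add_sub_cancel, one_pow, Finset.powerset_univ] at h
  rw [h]
  refine Finset.sum_congr rfl fun B _ => ?_
  unfold wt
  rw [← Finset.compl_eq_univ_sdiff, Finset.card_compl]

lemma prob_nonneg {p : ℝ} (h0 : 0 ≤ p) (h1 : p ≤ 1) (𝒜 : Finset (Finset α)) (ℓ : ℕ) :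
    0 ≤ prob p 𝒜 ℓ := by
  unfold prob
  refine Finset.sum_nonneg fun B _ => ?_
  have := wt_nonneg h0 h1 B
  unfold wt at this
  split_ifs
  · exact this
  · exact le_rfl

lemma prob_le_one {p : ℝ} (h0 : 0 ≤ p) (h1 : p ≤ 1) (𝒜 : Finset (Finset α)) (ℓ : ℕ) :
    prob p 𝒜 ℓ ≤ 1 := by
  rw [← sum_wt (α := α) p]
  unfold prob
  refine Finset.sum_le_sum fun B _ => ?_
  have := wt_nonneg h0 h1 B
  unfold wt at this ⊢
  split_ifs
  · exact le_rfl
  · exact this

end basic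

/-- Transfer along an equivalence. -/
lemma prob_map {α β : Type*} [Fintype α] [DecidableEq α] [Fintype β] [DecidableEq β]
    (e : α ≃ β) (p : ℝ) (𝒜 : Finset (Finset α)) (ℓ : ℕ) :
    prob p (𝒜.map e.finsetCongr.toEmbedding) ℓ = prob p 𝒜 ℓ := by
  unfold prob
  refine (Fintype.sum_equiv e.finsetCongr _ _ fun B => ?_).symm
  have h1 : cnt (𝒜.map e.finsetCongr.toEmbedding) (e.finsetCongr B) = cnt 𝒜 B := by
    unfold cnt
    rw [Finset.filter_map, Finset.card_map]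
    congr 1
    refine Finset.filter_congr fun A _ => ?_
    show e.finsetCongr A ⊆ e.finsetCongr B ↔ A ⊆ B
    rw [Equiv.finsetCongr_apply, Equiv.finsetCongr_apply]
    exact Finset.map_subset_map
  have h2 : (e.finsetCongr B).card = B.card := by simp [Equiv.finsetCongr_apply]
  rw [h1, h2, Fintype.card_congr e]

section union
variable {α β : Type*} [Fintype α] [DecidableEq α] [Fintype β] [DecidableEq β]

/-- The disjoint union of two families. -/
def dsum (𝒜 : Finset (Finset α)) (ℬ : Finset (Finset β)) : Finset (Finset (α ⊕ β)) :=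
  𝒜.image (fun A => A.map Function.Embedding.inl) ∪
    ℬ.image (fun A => A.map Function.Embedding.inr)

lemma empty_notMem_dsum {𝒜 : Finset (Finset α)} {ℬ : Finset (Finset β)} (hA : ∅ ∉ 𝒜)
    (hB : ∅ ∉ ℬ) : ∅ ∉ dsum 𝒜 ℬ := by
  unfold dsum
  simp only [Finset.mem_union, Finset.mem_image, Finset.map_eq_empty, exists_eq_right]
  tauto

lemma cnt_dsum {𝒜 : Finset (Finset α)} {ℬ : Finset (Finset β)} (hA : ∅ ∉ 𝒜)
    (S : Finset α) (T : Finset β) :
    cnt (dsum 𝒜 ℬ) (S.disjSum T) = cnt 𝒜 S + cnt ℬ T := by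
  unfold cnt dsum
  rw [Finset.filter_union, Finset.card_union_of_disjoint]
  · congr 1
    · rw [Finset.filter_image, Finset.card_image_of_injective]
      · congr 1
        ext A
        simp [Finset.map_inl_subset_iff_subset_toLeft]
      · exact fun A B h => Finset.map_injective _ h
    · rw [Finset.filter_image, Finset.card_image_of_injective]
      · congr 1
        ext A
        simp [Finset.map_inr_subset_iff_subset_toRight]
      · exact fun A B h => Finset.map_injective _ h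
  · refine Finset.disjoint_left.2 fun X hX hX' => ?_
    simp only [Finset.mem_filter, Finset.mem_image] at hX hX'
    obtain ⟨⟨A, hA1, rfl⟩, _⟩ := hX
    obtain ⟨⟨B, hB1, hB2⟩, _⟩ := hX'
    rcases A.eq_empty_or_nonempty with rfl | ⟨a, ha⟩
    · exact hA hA1
    · have h1 : (Sum.inl a : α ⊕ β) ∈ A.map Function.Embedding.inl := by
        simp [ha]
      rw [← hB2] at h1
      simp at h1

lemma sum_disjSum (f : Finset (α ⊕ β) → ℝ) :
    ∑ B : Finset (α ⊕ β), f B = ∑ S : Finset α, ∑ T : Finset β, f (S.disjSum T) := by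
  rw [← Fintype.sum_prod_type']
  refine Fintype.sum_equiv Finset.sumEquiv.toEquiv _ _ fun B => ?_
  simp [Finset.toLeft_disjSum_toRight]

lemma wt_disjSum (p : ℝ) (S : Finset α) (T : Finset β) :
    wt p (S.disjSum T) = wt p S * wt p T := by
  unfold wt
  rw [Finset.card_disjSum, Fintype.card_sum]
  have h1 : S.card ≤ Fintype.card α := Finset.card_le_univ S
  have h2 : T.card ≤ Fintype.card β := Finset.card_le_univ T
  have h3 : Fintype.card α + Fintype.card β - (S.card + T.card)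
      = (Fintype.card α - S.card) + (Fintype.card β - T.card) := by omega
  rw [h3, pow_add, pow_add]
  ring

lemma prob_eq_sum_wt (p : ℝ) (𝒜 : Finset (Finset α)) (ℓ : ℕ) :
    prob p 𝒜 ℓ = ∑ B : Finset α, if cnt 𝒜 B = ℓ then wt p B else 0 := rfl

/-- Both families are silent. -/
lemma prob_dsum_zero (p : ℝ) {𝒜 : Finset (Finset α)} {ℬ : Finset (Finset β)} (hA : ∅ ∉ 𝒜) :
    prob p (dsum 𝒜 ℬ) 0 = prob p 𝒜 0 * prob p ℬ 0 := by
  rw [prob_eq_sum_wt, prob_eq_sum_wt, prob_eq_sum_wt, sum_disjSum, Finset.sum_mul]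
  refine Finset.sum_congr rfl fun S _ => ?_
  rw [Finset.mul_sum]
  refine Finset.sum_congr rfl fun T _ => ?_
  rw [cnt_dsum hA, wt_disjSum]
  by_cases h1 : cnt 𝒜 S = 0
  · by_cases h2 : cnt ℬ T = 0
    · simp [h1, h2]
    · simp [h1, h2]
  · simp [h1]

/-- One of the two families is silent and the other one takes the value `ℓ`. -/
lemma prob_dsum_ge {p : ℝ} (h0 : 0 ≤ p) (h1 : p ≤ 1) {𝒜 : Finset (Finset α)}
    {ℬ : Finset (Finset β)} (hA : ∅ ∉ 𝒜) {ℓ : ℕ} (hℓ : 1 ≤ ℓ) :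
    prob p 𝒜 ℓ * prob p ℬ 0 + prob p 𝒜 0 * prob p ℬ ℓ ≤ prob p (dsum 𝒜 ℬ) ℓ := by
  rw [prob_eq_sum_wt p (dsum 𝒜 ℬ), sum_disjSum, prob_eq_sum_wt p 𝒜, prob_eq_sum_wt p 𝒜,
    Finset.sum_mul, Finset.sum_mul, ← Finset.sum_add_distrib]
  refine Finset.sum_le_sum fun S _ => ?_
  rw [prob_eq_sum_wt p ℬ, prob_eq_sum_wt p ℬ, Finset.mul_sum, Finset.mul_sum,
    ← Finset.sum_add_distrib]
  refine Finset.sum_le_sum fun T _ => ?_
  rw [cnt_dsum hA, wt_disjSum]
  have hS := wt_nonneg h0 h1 S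
  have hT := wt_nonneg h0 h1 T
  have hST := mul_nonneg hS hT
  by_cases a1 : cnt 𝒜 S = ℓ
  · have a2 : cnt 𝒜 S ≠ 0 := by omega
    by_cases b1 : cnt ℬ T = 0
    · have c1 : cnt 𝒜 S + cnt ℬ T = ℓ := by omega
      rw [if_pos a1, if_neg a2, if_pos b1, if_pos c1]
      simp
    · rw [if_pos a1, if_neg a2, if_neg b1]
      split_ifs <;> simp [hST]
  · rw [if_neg a1]
    by_cases a2 : cnt 𝒜 S = 0
    · by_cases b1 : cnt ℬ T = ℓ
      · have c1 : cnt 𝒜 S + cnt ℬ T = ℓ := by omega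
        rw [if_pos a2, if_pos b1, if_pos c1]
        simp
      · rw [if_pos a2, if_neg b1]
        split_ifs <;> simp [hST]
    · rw [if_neg a2]
      split_ifs <;> simp [hST]

end union

/-- `k` disjoint copies. -/
theorem copies {p : ℝ} (h0 : 0 ≤ p) (h1 : p ≤ 1) {ℓ : ℕ} (hℓ : 1 ≤ ℓ) {n : ℕ}
    {𝒜 : Finset (Finset (Fin n))} (hA : ∅ ∉ 𝒜) (k : ℕ) :
    ∃ (N : ℕ) (ℬ : Finset (Finset (Fin N))), ∅ ∉ ℬ ∧ prob p ℬ 0 = prob p 𝒜 0 ^ k ∧
      k * prob p 𝒜 ℓ * prob p 𝒜 0 ^ (k - 1) ≤ prob p ℬ ℓ := by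
  induction k with
  | zero =>
    refine ⟨0, ∅, by simp, ?_, ?_⟩
    · have h : ∀ B : Finset (Fin 0), cnt ∅ B = 0 := fun B => by simp [cnt]
      rw [prob_eq_sum_wt, pow_zero, ← sum_wt (α := Fin 0) p]
      exact Finset.sum_congr rfl fun B _ => if_pos (h B)
    · simp only [Nat.cast_zero, zero_mul]
      exact prob_nonneg h0 h1 _ _
  | succ k ih =>
    obtain ⟨N, ℬ, hB, hB0, hBl⟩ := ih
    let e : Fin N ⊕ Fin n ≃ Fin (N + n) := finSumFinEquiv
    refine ⟨N + n, (dsum ℬ 𝒜).map e.finsetCongr.toEmbedding, ?_, ?_, ?_⟩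
    · intro h
      rw [Finset.mem_map] at h
      obtain ⟨A, hA1, hA2⟩ := h
      have : A = ∅ := by
        simpa [Equiv.finsetCongr_apply] using hA2
      exact empty_notMem_dsum hB hA (this ▸ hA1)
    · rw [prob_map, prob_dsum_zero p hB, hB0, pow_succ]
    · rw [prob_map]
      refine le_trans ?_ (prob_dsum_ge h0 h1 hB hℓ)
      rw [hB0]
      have hq := prob_nonneg h0 h1 𝒜 0
      have ha := prob_nonneg h0 h1 𝒜 ℓ
      have h2 : k * prob p 𝒜 ℓ * prob p 𝒜 0 ^ k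
          ≤ prob p ℬ ℓ * prob p 𝒜 0 := by
        rcases Nat.eq_zero_or_pos k with rfl | hk
        · simp only [Nat.cast_zero, zero_mul]
          exact mul_nonneg (prob_nonneg h0 h1 _ _) hq
        · have h3 := mul_le_mul_of_nonneg_right hBl hq
          have h4 : prob p 𝒜 0 ^ k = prob p 𝒜 0 ^ (k - 1) * prob p 𝒜 0 := by
            rw [← pow_succ]; congr 1; omega
          rw [h4]
          linarith
      rw [Nat.add_sub_cancel]
      push_cast
      linarith

/-- From a family that, if it does not take the value `0`, takes the value `ℓ` most of the time,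
to a family that takes the value `ℓ` with probability almost `1 / e`. -/
theorem amplify {p : ℝ} (h0 : 0 ≤ p) (h1 : p ≤ 1) {ℓ : ℕ} (hℓ : 1 ≤ ℓ) {n : ℕ}
    {𝒜 : Finset (Finset (Fin n))} (hA : ∅ ∉ 𝒜) {δ : ℝ} (hδ : δ < 1)
    (hq1 : prob p 𝒜 0 < 1) (hq : 1 - δ ≤ prob p 𝒜 0)
    (ha : (1 - δ) * (1 - prob p 𝒜 0) ≤ prob p 𝒜 ℓ) :
    ∃ (N : ℕ) (ℬ : Finset (Finset (Fin N))), ∅ ∉ ℬ ∧
      (1 - δ) ^ 2 * Real.exp (-1) ≤ prob p ℬ ℓ := by
  set q := prob p 𝒜 0 with hqdef
  set b := 1 - q with hb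
  have hb0 : 0 < b := by linarith
  have hbδ : b ≤ δ := by linarith
  have hq0 : 0 < q := by linarith
  set k := ⌊1 / b⌋₊ with hk
  have hk1 : (k : ℝ) ≤ 1 / b := Nat.floor_le (by positivity)
  have hk2 : 1 / b < k + 1 := Nat.lt_floor_add_one _
  have hb1 : b < 1 := by linarith
  have hkpos : 1 ≤ k := by
    rw [hk]
    refine Nat.le_floor ?_
    rw [Nat.cast_one, le_div_iff₀ hb0]
    linarith
  obtain ⟨N, ℬ, hB, -, hBl⟩ := copies h0 h1 hℓ hA k
  refine ⟨N, ℬ, hB, le_trans ?_ hBl⟩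
  -- `q ^ (k-1) ≥ e^{-1}`
  have hpow : Real.exp (-1) ≤ q ^ (k - 1) := by
    have hlog : -(b / q) ≤ Real.log q := by
      have h2 := Real.log_le_sub_one_of_pos (inv_pos.2 hq0)
      rw [Real.log_inv] at h2
      have h3 : b / q = q⁻¹ - 1 := by rw [hb]; field_simp
      linarith
    have hk3 : ((k - 1 : ℕ) : ℝ) ≤ q / b := by
      rw [Nat.cast_sub hkpos]
      have : q / b = 1 / b - 1 := by
        have h6 : q = 1 - b := by rw [hb]; ring
        rw [h6, sub_div, div_self hb0.ne']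
      push_cast
      linarith
    have h4 : q ^ (k - 1) = Real.exp (((k - 1 : ℕ) : ℝ) * Real.log q) := by
      rw [mul_comm, Real.exp_mul, Real.exp_log hq0, Real.rpow_natCast]
    rw [h4]
    refine Real.exp_le_exp.2 ?_
    have h5 : 0 ≤ ((k - 1 : ℕ) : ℝ) := Nat.cast_nonneg _
    have h6 : ((k - 1 : ℕ) : ℝ) * (b / q) ≤ 1 := by
      calc ((k - 1 : ℕ) : ℝ) * (b / q) ≤ q / b * (b / q) := by gcongr
        _ = 1 := by field_simp
    nlinarith
  -- `k * a ≥ (1 - δ)²`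
  have hka : (1 - δ) ^ 2 ≤ k * prob p 𝒜 ℓ := by
    have h2 : 1 - b ≤ k * b := by
      have := mul_lt_mul_of_pos_right hk2 hb0
      rw [one_div, inv_mul_cancel₀ hb0.ne'] at this
      linarith
    have h3 : (k : ℝ) * ((1 - δ) * b) ≤ k * prob p 𝒜 ℓ :=
      mul_le_mul_of_nonneg_left ha (Nat.cast_nonneg _)
    have h4 : 0 ≤ 1 - δ := by linarith
    have h5 : (1 - δ) * (1 - δ) ≤ (1 - δ) * (k * b) :=
      mul_le_mul_of_nonneg_left (by linarith) h4
    nlinarith
  calc (1 - δ) ^ 2 * Real.exp (-1) ≤ (k * prob p 𝒜 ℓ) * q ^ (k - 1) :=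
        mul_le_mul hka hpow (Real.exp_pos _).le (le_trans (sq_nonneg _) hka)
    _ = _ := rfl

end Pool.Agent.Lib.MP_eb6a62_co
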