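import Mathlib

/-!
The probability that a random subset contains exactly `ℓ` members of a family, and the supremum
of this probability over all families of nonempty finite sets.
-/

set_option autoImplicit false

open Finset

namespace Pool.Agent.Lib.MP_eb6a62_co

/-- The number of members of `𝒜` that are contained in `B`. -/
def cnt {α : Type*} [DecidableEq α] (𝒜 : Finset (Finset α)) (B : Finset α) : ℕ :=
  (𝒜.filter (fun A => A ⊆ B)).card

/-- The probability that exactly `ℓ` members of `𝒜` are contained in the random subset of the
finite set `α` that contains every element independently with probability `p`. -/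
noncomputable def prob {α : Type*} [Fintype α] [DecidableEq α] (p : ℝ)
    (𝒜 : Finset (Finset α)) (ℓ : ℕ) : ℝ :=
  ∑ B : Finset α, if cnt 𝒜 B = ℓ then p ^ B.card * (1 - p) ^ (Fintype.card α - B.card) else 0

/-- `ind_*(ℓ, p)`: the supremum of `prob p 𝒜 ℓ` over all finite sets `{0, …, n-1}` and all
families `𝒜` of nonempty subsets of it. -/
noncomputable def indStar (ℓ : ℕ) (p : ℝ) : ℝ :=
  sSup {x : ℝ | ∃ (n : ℕ) (𝒜 : Finset (Finset (Fin n))), ∅ ∉ 𝒜 ∧ x = prob p 𝒜 ℓ}

end Pool.Agent.Lib.MP_eb6a62_co
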