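import Pool.Agent.Lib.MP_eb6a62_co.Prob
import Pool.Agent.Lib.MP_eb6a62_co.Copies
import Pool.Agent.Lib.MP_eb6a62_co.Binomial

/-!
The gadget: all `r`-subsets that contain a member of a sparse random family of `m`-subsets,
`m = r + 1 - ℓ`.
-/

set_option autoImplicit false
set_option linter.unusedSectionVars false

open Finset

namespace Pool.Agent.Lib.MP_eb6a62_co

section random
variable {γ : Type*} [DecidableEq γ]

lemma ev_congr {p : ℝ} {R : Finset γ} {φ ψ : Finset γ → ℝ} (h : ∀ T ⊆ R, φ T = ψ T) :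
    ev p R φ = ev p R ψ := by
  unfold ev
  refine Finset.sum_congr rfl fun T hT => ?_
  rw [h T (Finset.mem_powerset.1 hT)]

lemma ev_smul (p : ℝ) (R : Finset γ) (c : ℝ) (φ : Finset γ → ℝ) :
    ev p R (fun T => c * φ T) = c * ev p R φ := by
  unfold ev
  rw [Finset.mul_sum]
  refine Finset.sum_congr rfl fun T _ => ?_
  ring

lemma ev_sum (p : ℝ) (R : Finset γ) {ι : Type*} (s : Finset ι) (φ : ι → Finset γ → ℝ) :
    ev p R (fun T => ∑ i ∈ s, φ i T) = ∑ i ∈ s, ev p R (φ i) := by
  unfold ev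
  rw [Finset.sum_comm]
  refine Finset.sum_congr rfl fun T _ => ?_
  rw [Finset.mul_sum]

/-- if the expectation is positive, some value is positive -/
lemma exists_pos_of_ev_pos {p : ℝ} (h0 : 0 ≤ p) (h1 : p ≤ 1) {R : Finset γ}
    {φ : Finset γ → ℝ} (h : 0 < ev p R φ) : ∃ T ⊆ R, 0 < φ T := by
  by_contra hne
  push Not at hne
  have h2 := ev_mono h0 h1 (R := R) (φ := φ) (ψ := fun _ => 0) hne
  rw [ev_const] at h2
  linarith

/-- the random family misses `Z` -/
lemma ev_miss (p : ℝ) (R Z : Finset γ) :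
    ev p R (fun T => if (T ∩ Z).card = 0 then 1 else 0) = (1 - p) ^ (R ∩ Z).card := by
  induction R using Finset.induction_on with
  | empty => simp [ev_empty]
  | insert e R he ih =>
    rw [ev_insert p he, ih]
    by_cases hZ : e ∈ Z
    · have h1 : ev p R (fun T => if (insert e T ∩ Z).card = 0 then (1 : ℝ) else 0) = 0 := by
        refine (ev_congr (ψ := fun _ => 0) fun T _ => ?_).trans (ev_const p R 0)
        rw [Finset.insert_inter_of_mem hZ]
        simp
      rw [h1, Finset.insert_inter_of_mem hZ, Finset.card_insert_of_notMem (by simp [he]),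
        pow_succ]
      ring
    · have h1 : ev p R (fun T => if (insert e T ∩ Z).card = 0 then (1 : ℝ) else 0)
          = (1 - p) ^ (R ∩ Z).card := by
        rw [← ih]
        refine ev_congr fun T _ => ?_
        rw [Finset.insert_inter_of_notMem hZ]
      rw [h1, Finset.insert_inter_of_notMem hZ]
      ring

/-- the random family meets `Z` in exactly one element -/
lemma ev_one (p : ℝ) (R Z : Finset γ) :
    ev p R (fun T => if (T ∩ Z).card = 1 then 1 else 0)
      = (R ∩ Z).card * (p * (1 - p) ^ ((R ∩ Z).card - 1)) := by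
  induction R using Finset.induction_on with
  | empty => simp [ev_empty]
  | insert e R he ih =>
    rw [ev_insert p he, ih]
    by_cases hZ : e ∈ Z
    · have h1 : ev p R (fun T => if (insert e T ∩ Z).card = 1 then (1 : ℝ) else 0)
          = (1 - p) ^ (R ∩ Z).card := by
        rw [← ev_miss]
        refine ev_congr fun T hT => ?_
        have heT : e ∉ T ∩ Z := fun h => he (hT (Finset.mem_inter.1 h).1)
        rw [Finset.insert_inter_of_mem hZ, Finset.card_insert_of_notMem heT]
        simp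
      rw [h1, Finset.insert_inter_of_mem hZ, Finset.card_insert_of_notMem (by simp [he]),
        Nat.add_sub_cancel]
      rcases Nat.eq_zero_or_pos (R ∩ Z).card with h2 | h2
      · rw [h2]; simp
      · have h3 : (1 - p) ^ (R ∩ Z).card = (1 - p) ^ ((R ∩ Z).card - 1) * (1 - p) := by
          rw [← pow_succ]; congr 1; omega
        rw [h3]
        push_cast
        ring
    · have h1 : ev p R (fun T => if (insert e T ∩ Z).card = 1 then (1 : ℝ) else 0)
          = (R ∩ Z).card * (p * (1 - p) ^ ((R ∩ Z).card - 1)) := by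
        rw [← ih]
        refine ev_congr fun T _ => ?_
        rw [Finset.insert_inter_of_notMem hZ]
      rw [h1, Finset.insert_inter_of_notMem hZ]
      ring

lemma ev_hit_le {p : ℝ} (h1 : p ≤ 1) {R Z : Finset γ} (hZ : Z ⊆ R) :
    ev p R (fun T => if (T ∩ Z).card = 0 then 0 else 1) ≤ Z.card * p := by
  have h2 : ev p R (fun T => if (T ∩ Z).card = 0 then (0 : ℝ) else 1)
      = 1 - (1 - p) ^ Z.card := by
    have h3 := ev_add p R (fun T => if (T ∩ Z).card = 0 then (0 : ℝ) else 1)
      (fun T => if (T ∩ Z).card = 0 then (1 : ℝ) else 0)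
    rw [ev_miss, Finset.inter_eq_right.2 hZ] at h3
    have h4 : ev p R (fun T => (if (T ∩ Z).card = 0 then (0 : ℝ) else 1)
        + (if (T ∩ Z).card = 0 then (1 : ℝ) else 0)) = 1 := by
      refine (ev_congr (ψ := fun _ => 1) fun T _ => ?_).trans (ev_const p R 1)
      split_ifs <;> norm_num
    linarith
  rw [h2]
  have h5 := one_add_mul_le_pow (a := -p) (by linarith) Z.card
  have h6 : (1 : ℝ) + -p = 1 - p := by ring
  rw [h6] at h5
  linarith

lemma ev_one_ge {p : ℝ} (h0 : 0 ≤ p) (h1 : p ≤ 1) {R Z : Finset γ} (hZ : Z ⊆ R) :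
    Z.card * p * (1 - Z.card * p) ≤ ev p R (fun T => if (T ∩ Z).card = 1 then 1 else 0) := by
  rw [ev_one, Finset.inter_eq_right.2 hZ]
  rcases Nat.eq_zero_or_pos Z.card with h2 | h2
  · rw [h2]; simp
  · have h5 := one_add_mul_le_pow (a := -p) (by linarith) (Z.card - 1)
    have h6 : (1 : ℝ) + -p = 1 - p := by ring
    rw [h6, Nat.cast_sub h2] at h5
    have h7 : (1 : ℝ) - Z.card * p ≤ (1 - p) ^ (Z.card - 1) := by
      push_cast at h5
      nlinarith
    have h8 : 0 ≤ (Z.card : ℝ) * p := by positivity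
    calc (Z.card : ℝ) * p * (1 - Z.card * p) ≤ Z.card * p * (1 - p) ^ (Z.card - 1) :=
          mul_le_mul_of_nonneg_left h7 h8
      _ = _ := by ring

end random

section comb
variable {n : ℕ}

/-- all `r`-subsets that contain a member of `𝒟` -/
def gad (r : ℕ) (𝒟 : Finset (Finset (Fin n))) : Finset (Finset (Fin n)) :=
  (powersetCard r univ).filter (fun A => ∃ d ∈ 𝒟, d ⊆ A)

lemma empty_notMem_gad {r : ℕ} (hr : 0 < r) (𝒟 : Finset (Finset (Fin n))) : ∅ ∉ gad r 𝒟 := by
  unfold gad
  simp only [Finset.mem_filter, Finset.mem_powersetCard, Finset.card_empty]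
  rintro ⟨⟨_, h⟩, _⟩
  omega

lemma cnt_gad_eq_zero_of_lt {r : ℕ} (𝒟 : Finset (Finset (Fin n))) {S : Finset (Fin n)}
    (hS : S.card < r) : cnt (gad r 𝒟) S = 0 := by
  unfold cnt gad
  rw [Finset.card_eq_zero, Finset.filter_eq_empty_iff]
  intro A hA hAS
  rw [Finset.mem_filter, Finset.mem_powersetCard] at hA
  have := Finset.card_le_card hAS
  omega

lemma cnt_gad_eq_zero_of_miss {r m : ℕ} {𝒟 : Finset (Finset (Fin n))}
    (hD : 𝒟 ⊆ powersetCard m univ) {S : Finset (Fin n)}
    (hS : (𝒟 ∩ powersetCard m S).card = 0) : cnt (gad r 𝒟) S = 0 := by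
  unfold cnt gad
  rw [Finset.card_eq_zero, Finset.filter_eq_empty_iff]
  intro A hA hAS
  rw [Finset.mem_filter] at hA
  obtain ⟨_, d, hd, hdA⟩ := hA
  have h1 : d ∈ 𝒟 ∩ powersetCard m S := by
    rw [Finset.mem_inter, Finset.mem_powersetCard]
    exact ⟨hd, hdA.trans hAS, (Finset.mem_powersetCard.1 (hD hd)).2⟩
  rw [Finset.card_eq_zero] at hS
  rw [hS] at h1
  exact absurd h1 (Finset.notMem_empty _)

lemma cnt_gad_eq {r m : ℕ} {𝒟 : Finset (Finset (Fin n))}
    (hD : 𝒟 ⊆ powersetCard m univ) {S : Finset (Fin n)} (hSr : S.card = r + 1)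
    (hS : (𝒟 ∩ powersetCard m S).card = 1) : cnt (gad r 𝒟) S = r + 1 - m := by
  obtain ⟨d, hd⟩ := Finset.card_eq_one.1 hS
  have hdm : d ∈ 𝒟 ∩ powersetCard m S := by rw [hd]; exact Finset.mem_singleton_self d
  rw [Finset.mem_inter, Finset.mem_powersetCard] at hdm
  obtain ⟨hd𝒟, hdS, hdc⟩ := hdm
  have huniq : ∀ d' ∈ 𝒟, d' ⊆ S → d' = d := by
    intro d' hd' hd'S
    have h1 : d' ∈ 𝒟 ∩ powersetCard m S := by
      rw [Finset.mem_inter, Finset.mem_powersetCard]
      exact ⟨hd', hd'S, (Finset.mem_powersetCard.1 (hD hd')).2⟩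
    rw [hd] at h1
    exact Finset.mem_singleton.1 h1
  have hset : (gad r 𝒟).filter (fun A => A ⊆ S) = (S \ d).image (fun x => S.erase x) := by
    ext A
    simp only [gad, Finset.mem_filter, Finset.mem_powersetCard, Finset.mem_image,
      Finset.mem_sdiff]
    constructor
    · rintro ⟨⟨⟨_, hAr⟩, d', hd', hd'A⟩, hAS⟩
      have h1 := huniq d' hd' (hd'A.trans hAS)
      subst h1
      have h2 : (S \ A).card = 1 := by
        rw [Finset.card_sdiff_of_subset hAS]
        omega
      obtain ⟨x, hx⟩ := Finset.card_eq_one.1 h2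
      have hxm : x ∈ S \ A := by rw [hx]; exact Finset.mem_singleton_self x
      rw [Finset.mem_sdiff] at hxm
      refine ⟨x, ⟨hxm.1, fun h => hxm.2 (hd'A h)⟩, ?_⟩
      ext y
      rw [Finset.mem_erase]
      constructor
      · rintro ⟨h3, h4⟩
        by_contra h5
        have h6 : y ∈ S \ A := Finset.mem_sdiff.2 ⟨h4, h5⟩
        rw [hx] at h6
        exact h3 (Finset.mem_singleton.1 h6)
      · intro h3
        exact ⟨fun h4 => hxm.2 (h4 ▸ h3), hAS h3⟩
    · rintro ⟨x, ⟨hxS, hxd⟩, rfl⟩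
      refine ⟨⟨⟨Finset.subset_univ _, ?_⟩, d, hd𝒟, ?_⟩, Finset.erase_subset _ _⟩
      · rw [Finset.card_erase_of_mem hxS]; omega
      · intro y hy
        rw [Finset.mem_erase]
        exact ⟨fun h => hxd (h ▸ hy), hdS hy⟩
  unfold cnt
  rw [hset, Finset.card_image_of_injOn, Finset.card_sdiff_of_subset hdS, hSr, hdc]
  intro x hx y hy hxy
  simp only [Finset.coe_sdiff, Set.mem_sdiff, Finset.mem_coe] at hx hy
  by_contra hne
  have h1 : x ∈ S.erase y := Finset.mem_erase.2 ⟨hne, hx.1⟩
  have h2 : S.erase x = S.erase y := hxy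
  rw [← h2] at h1
  exact (Finset.mem_erase.1 h1).1 rfl

end comb

set_option maxHeartbeats 4000000 in
/-- **The gadget.** -/
theorem gadget {ℓ : ℕ} (hℓ : 1 ≤ ℓ) {δ : ℝ} (hδ0 : 0 < δ) (hδ1 : δ < 1) :
    ∃ p₀ : ℝ, 0 < p₀ ∧ ∀ p : ℝ, 0 < p → p < p₀ →
      ∃ (n : ℕ) (𝒜 : Finset (Finset (Fin n))), ∅ ∉ 𝒜 ∧ prob p 𝒜 0 < 1 ∧
        1 - δ ≤ prob p 𝒜 0 ∧ (1 - δ) * (1 - prob p 𝒜 0) ≤ prob p 𝒜 ℓ := by
  -- the parameters
  set a : ℝ := 4 * ℓ / δ with ha
  have hℓ' : (1 : ℝ) ≤ ℓ := by exact_mod_cast hℓ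
  have ha0 : 0 < a := by positivity
  obtain ⟨r₀, hr₀⟩ := exists_nat_ge (128 * (a + 1) / δ ^ 2)
  set r : ℕ := r₀ + ℓ with hr
  have hrℓ : ℓ ≤ r := by omega
  have hr1 : 1 ≤ r := by omega
  have hrbig : 128 * (a + 1) / δ ^ 2 ≤ (r : ℝ) := by
    refine hr₀.trans ?_
    rw [hr]; push_cast; linarith
  have hrbig' : 128 * (a + 1) ≤ (r : ℝ) * δ ^ 2 := by
    rwa [div_le_iff₀ (by positivity)] at hrbig
  refine ⟨δ / 8, by positivity, fun p hp0 hp => ?_⟩
  have hp1 : p < 1 / 8 := by linarith
  have hq : 0 < 1 - p := by linarith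
  set N₁ : ℕ := ⌈a / p⌉₊ with hN₁
  set n : ℕ := r + N₁ with hn
  have hN1 : a ≤ N₁ * p := by
    have := Nat.le_ceil (a / p)
    rw [div_le_iff₀ hp0] at this
    exact this
  have hN2 : N₁ * p ≤ a + p := by
    have := (Nat.ceil_lt_add_one (a := a / p) (by positivity)).le
    have h2 := mul_le_mul_of_nonneg_right this hp0.le
    have h3 : (a / p + 1) * p = a + p := by field_simp
    rw [h3] at h2
    exact h2
  have hN1pos : 1 ≤ N₁ := by
    by_contra h
    have : N₁ = 0 := by omega
    rw [this] at hN1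
    simp at hN1
    linarith
  have hnr : ((n : ℝ) - r) = N₁ := by rw [hn]; push_cast; ring
  set m : ℕ := r + 1 - ℓ with hm
  have hmr : m ≤ r := by omega
  have hC : 0 < (r + 1).choose m := Nat.choose_pos (by omega)
  have hC' : (1 : ℝ) ≤ (r + 1).choose m := by exact_mod_cast hC
  set τ : ℝ := δ / 4 with hτ
  set θ : ℝ := τ / (r + 1).choose m with hθ
  have hθ0 : 0 ≤ θ := by positivity
  have hCθ : ((r + 1).choose m : ℝ) * θ = τ := by rw [hθ]; field_simp
  have hθ1 : θ ≤ 1 := by
    have : θ ≤ ((r + 1).choose m : ℝ) * θ := by nlinarith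
    rw [hCθ, hτ] at this
    linarith
  set ρ : ℝ := δ ^ 2 / 64 with hρ
  have hρ0 : 0 ≤ ρ := by positivity
  have hρ1 : ρ ≤ 1 / 2 := by
    have : δ ^ 2 ≤ 1 := by nlinarith
    rw [hρ]; linarith
  have hρr : a + 1 ≤ ρ * ((r : ℝ) * (1 - p)) := by
    have h1 : (1 : ℝ) / 2 ≤ 1 - p := by linarith
    have h2 : 0 ≤ ρ * r := by positivity
    have h3 : ρ * r * (1 / 2) ≤ ρ * r * (1 - p) := mul_le_mul_of_nonneg_left h1 h2
    have h4 : ρ * r * (1 / 2) = (r * δ ^ 2) / 128 := by rw [hρ]; ring
    rw [h4] at h3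
    linarith
  set Ω : Finset (Finset (Fin n)) := powersetCard m univ with hΩ
  -- the test function
  let g : Finset (Fin n) → Finset (Finset (Fin n)) → ℝ := fun S 𝒟 =>
    (if cnt (gad r 𝒟) S = ℓ then 1 else 0) - (1 - δ) * (if cnt (gad r 𝒟) S = 0 then 0 else 1)
  let h : ℕ → ℝ := fun y =>
    if y < r then 0 else if y = r then -((r.choose m : ℝ) * θ)
      else if y = r + 1 then τ * (δ - τ) else -1
  have hgh : ∀ S : Finset (Fin n), h S.card ≤ ev θ Ω (g S) := by
    intro S
    have hZ : powersetCard m S ⊆ Ω := Finset.powersetCard_mono (Finset.subset_univ S)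
    have hZc : (powersetCard m S).card = S.card.choose m := Finset.card_powersetCard m S
    rcases lt_trichotomy S.card r with hlt | heq | hgt
    · have h1 : h S.card = 0 := if_pos hlt
      rw [h1, ← ev_const θ Ω 0]
      refine ev_mono hθ0 hθ1 fun 𝒟 _ => ?_
      show (0 : ℝ) ≤ g S 𝒟
      simp only [g]
      rw [cnt_gad_eq_zero_of_lt 𝒟 hlt, if_neg (by omega), if_pos rfl]
      simp
    · have h1 : h S.card = -((r.choose m : ℝ) * θ) := by
        simp only [h]
        rw [if_neg (by omega), if_pos heq]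
      have h2 := ev_hit_le hθ1 hZ
      rw [hZc, heq] at h2
      rw [h1]
      have h3 : ev θ Ω (fun T => -1 * (if (T ∩ powersetCard m S).card = 0 then (0 : ℝ) else 1))
          ≤ ev θ Ω (g S) := by
        refine ev_mono hθ0 hθ1 fun 𝒟 hD => ?_
        simp only [g]
        by_cases h4 : (𝒟 ∩ powersetCard m S).card = 0
        · rw [if_pos h4, cnt_gad_eq_zero_of_miss hD h4, if_neg (by omega), if_pos rfl]
          simp
        · rw [if_neg h4]
          split_ifs <;> linarith
      rw [ev_smul] at h3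
      linarith
    · by_cases heq : S.card = r + 1
      · have h1 : h S.card = τ * (δ - τ) := by
          simp only [h]
          rw [if_neg (by omega), if_neg (by omega), if_pos heq]
        have h2 := ev_hit_le hθ1 hZ
        have h2' := ev_one_ge hθ0 hθ1 hZ
        rw [hZc, heq, hCθ] at h2 h2'
        rw [h1]
        have h3 : ev θ Ω (fun T => (if (T ∩ powersetCard m S).card = 1 then (1 : ℝ) else 0)
            + (-(1 - δ)) * (if (T ∩ powersetCard m S).card = 0 then (0 : ℝ) else 1))
            ≤ ev θ Ω (g S) := by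
          refine ev_mono hθ0 hθ1 fun 𝒟 hD => ?_
          simp only [g]
          by_cases h4 : (𝒟 ∩ powersetCard m S).card = 0
          · rw [if_neg (by omega), if_pos h4, cnt_gad_eq_zero_of_miss hD h4,
              if_neg (by omega), if_pos rfl]
            simp
          · rw [if_neg h4]
            by_cases h5 : (𝒟 ∩ powersetCard m S).card = 1
            · have h6 : cnt (gad r 𝒟) S = ℓ := by
                rw [cnt_gad_eq hD heq h5]; omega
              rw [if_pos h5, if_pos h6, if_neg (by omega)]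
              linarith
            · rw [if_neg h5]
              split_ifs <;> linarith
        rw [ev_add, ev_smul] at h3
        have h7 : (1 - δ) * ev θ Ω (fun T => if (T ∩ powersetCard m S).card = 0 then (0 : ℝ)
            else 1) ≤ (1 - δ) * τ := mul_le_mul_of_nonneg_left h2 (by linarith)
        linarith
      · have h1 : h S.card = -1 := by
          simp only [h]
          rw [if_neg (by omega), if_neg (by omega), if_neg heq]
        rw [h1, ← ev_const θ Ω (-1)]
        refine ev_mono hθ0 hθ1 fun 𝒟 _ => ?_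
        show (-1 : ℝ) ≤ g S 𝒟
        simp only [g]
        split_ifs <;> linarith
  -- the expectation of the total
  have hbin0 : ∀ y, 0 ≤ bin n p y := bin_nonneg hp0.le (by linarith)
  have hrn : r + 1 ≤ n := by omega
  have hEf : 0 < ev θ Ω (fun 𝒟 => ∑ S : Finset (Fin n), wt p S * g S 𝒟) := by
    rw [ev_sum]
    have h1 : ∑ S : Finset (Fin n), wt p S * h S.card
        ≤ ∑ S : Finset (Fin n), ev θ Ω (fun 𝒟 => wt p S * g S 𝒟) := by
      refine Finset.sum_le_sum fun S _ => ?_
      rw [ev_smul]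
      exact mul_le_mul_of_nonneg_left (hgh S) (wt_nonneg hp0.le (by linarith) S)
    refine lt_of_lt_of_le ?_ h1
    have h2 : ∑ S : Finset (Fin n), wt p S * h S.card = ∑ y ∈ range (n + 1), bin n p y * h y :=
      sum_card p h
    rw [h2, Finset.range_eq_Ico, ← Finset.sum_Ico_consecutive _ (Nat.zero_le r)
      (by omega : r ≤ n + 1), Finset.sum_eq_sum_Ico_succ_bot (by omega : r < n + 1),
      Finset.sum_eq_sum_Ico_succ_bot (by omega : r + 1 < n + 1)]
    have h3 : ∑ y ∈ Ico 0 r, bin n p y * h y = 0 := by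
      refine Finset.sum_eq_zero fun y hy => ?_
      rw [Finset.mem_Ico] at hy
      have : h y = 0 := if_pos hy.2
      rw [this, mul_zero]
    have h4 : h r = -((r.choose m : ℝ) * θ) := by
      simp only [h]
      rw [if_neg (by omega), if_pos trivial]
    have h5 : h (r + 1) = τ * (δ - τ) := by
      simp only [h]
      rw [if_neg (by omega), if_neg (by omega), if_pos trivial]
    have h6 : ∑ y ∈ Ico (r + 1 + 1) (n + 1), bin n p y * h y
        = - ∑ y ∈ Ico (r + 1 + 1) (n + 1), bin n p y := by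
      rw [← Finset.sum_neg_distrib]
      refine Finset.sum_congr rfl fun y hy => ?_
      rw [Finset.mem_Ico] at hy
      have : h y = -1 := by
        simp only [h]
        rw [if_neg (by omega), if_neg (by omega), if_neg (by omega)]
      rw [this]; ring
    rw [h3, h4, h5, h6]
    -- the tail
    have h7 : ∑ y ∈ Ico (r + 1 + 1) (n + 1), bin n p y ≤ 2 * ρ * bin n p (r + 1) := by
      refine bin_tail hp0.le (by linarith) hrn hρ0 hρ1 ?_
      have h8 : ((n : ℝ) - (r + 1 : ℕ)) * p ≤ a + 1 := by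
        have : ((n : ℝ) - (r + 1 : ℕ)) = N₁ - 1 := by
          push_cast; linarith
        rw [this]
        nlinarith
      have h9 : ρ * ((r : ℝ) * (1 - p)) ≤ ρ * ((((r + 1 : ℕ) : ℝ) + 1) * (1 - p)) := by
        refine mul_le_mul_of_nonneg_left (mul_le_mul_of_nonneg_right ?_ hq.le) hρ0
        push_cast; linarith
      linarith
    -- the level `r`
    have h10 : bin n p r * ((r.choose m : ℝ) * θ) ≤ bin n p (r + 1) * (τ * δ / 4) := by
      have h11 := bin_succ p (by omega : r < n)
      rw [hnr] at h11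
      have h12 : (r.choose m : ℝ) * (r + 1) = ((r + 1).choose m : ℝ) * ℓ := by
        have h13 := Nat.choose_mul_succ_eq r m
        have h14 : r + 1 - m = ℓ := by omega
        rw [h14] at h13
        exact_mod_cast h13
      have h15 : (r.choose m : ℝ) * θ * (r + 1) = τ * ℓ := by
        calc (r.choose m : ℝ) * θ * (r + 1) = (r.choose m : ℝ) * (r + 1) * θ := by ring
          _ = ((r + 1).choose m : ℝ) * θ * ℓ := by rw [h12]; ring
          _ = τ * ℓ := by rw [hCθ]
      have h16 : bin n p r * a ≤ bin n p (r + 1) * (r + 1) := by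
        have h17 : bin n p r * a ≤ bin n p r * (N₁ * p) :=
          mul_le_mul_of_nonneg_left hN1 (hbin0 r)
        have h18 : bin n p (r + 1) * (((r : ℝ) + 1) * (1 - p)) ≤ bin n p (r + 1) * (r + 1) := by
          refine mul_le_mul_of_nonneg_left ?_ (hbin0 _)
          have : (0 : ℝ) ≤ (r : ℝ) + 1 := by positivity
          nlinarith
        linarith
      have h19 : τ * ℓ = τ * δ / 4 * a := by rw [ha]; field_simp
      have hr1' : (0 : ℝ) < (r : ℝ) + 1 := by positivity
      have h20 : bin n p r * ((r.choose m : ℝ) * θ) * (a * (r + 1))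
          ≤ bin n p (r + 1) * (τ * δ / 4) * (a * (r + 1)) := by
        calc bin n p r * ((r.choose m : ℝ) * θ) * (a * (r + 1))
            = (bin n p r * a) * ((r.choose m : ℝ) * θ * (r + 1)) := by ring
          _ = (bin n p r * a) * (τ * δ / 4 * a) := by rw [h15, h19]
          _ ≤ (bin n p (r + 1) * (r + 1)) * (τ * δ / 4 * a) :=
              mul_le_mul_of_nonneg_right h16 (by positivity)
          _ = _ := by ring
      exact le_of_mul_le_mul_right h20 (by positivity)
    have h21 : 0 < bin n p (r + 1) := bin_pos hp0 (by linarith) hrn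
    have h22 : 0 < bin n p (r + 1) * (τ * δ) := by positivity
    have h23 : 2 * ρ * bin n p (r + 1) = bin n p (r + 1) * (τ * δ) / 8 := by
      rw [hρ, hτ]; ring
    have h24 : bin n p (r + 1) * (τ * (δ - τ)) = bin n p (r + 1) * (τ * δ) * (3 / 4) := by
      rw [hτ]; ring
    rw [h23] at h7
    rw [h24]
    have h25 : bin n p (r + 1) * (τ * δ / 4) = bin n p (r + 1) * (τ * δ) / 4 := by ring
    rw [h25] at h10
    linarith
  obtain ⟨𝒟, hD, hf⟩ := exists_pos_of_ev_pos hθ0 hθ1 hEf
  -- evaluate the total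
  have hsum : ∑ S : Finset (Fin n), wt p S * g S 𝒟
      = prob p (gad r 𝒟) ℓ - (1 - δ) * (1 - prob p (gad r 𝒟) 0) := by
    have h1 : ∀ S : Finset (Fin n), wt p S * g S 𝒟
        = (if cnt (gad r 𝒟) S = ℓ then wt p S else 0)
          - (1 - δ) * (wt p S - if cnt (gad r 𝒟) S = 0 then wt p S else 0) := by
      intro S
      simp only [g]
      split_ifs <;> ring
    rw [Finset.sum_congr rfl fun S _ => h1 S, Finset.sum_sub_distrib, ← Finset.mul_sum,
      Finset.sum_sub_distrib, sum_wt]
    rfl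
  rw [hsum] at hf
  -- the probability of a nonzero value
  have hnz : 1 - prob p (gad r 𝒟) 0
      = ∑ S : Finset (Fin n), if cnt (gad r 𝒟) S = 0 then 0 else wt p S := by
    rw [← sum_wt (α := Fin n) p, prob_eq_sum_wt, ← Finset.sum_sub_distrib]
    refine Finset.sum_congr rfl fun S _ => ?_
    split_ifs <;> ring
  have hnz1 : prob p (gad r 𝒟) ℓ ≤ 1 - prob p (gad r 𝒟) 0 := by
    rw [hnz, prob_eq_sum_wt]
    refine Finset.sum_le_sum fun S _ => ?_
    have h1 := wt_nonneg hp0.le (by linarith : p ≤ 1) S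
    by_cases h2 : cnt (gad r 𝒟) S = ℓ
    · rw [if_pos h2, if_neg (by omega)]
    · rw [if_neg h2]
      split_ifs <;> linarith
  have hnz2 : 1 - prob p (gad r 𝒟) 0 ≤ δ := by
    rw [hnz]
    have h1 : ∑ S : Finset (Fin n), (if cnt (gad r 𝒟) S = 0 then 0 else wt p S)
        ≤ ∑ S : Finset (Fin n), wt p S * (if S.card < r then 0 else 1) := by
      refine Finset.sum_le_sum fun S _ => ?_
      have h2 := wt_nonneg hp0.le (by linarith : p ≤ 1) S
      by_cases h3 : S.card < r
      · rw [cnt_gad_eq_zero_of_lt 𝒟 h3, if_pos rfl, if_pos h3, mul_zero]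
      · rw [if_neg h3, mul_one]
        split_ifs
        · exact h2
        · exact le_rfl
    refine h1.trans ?_
    have h2 : ∑ S : Finset (Fin n), wt p S * (if S.card < r then (0 : ℝ) else 1)
        = ∑ y ∈ range (n + 1), bin n p y * (if y < r then (0 : ℝ) else 1) :=
      sum_card p (fun y => if y < r then (0 : ℝ) else 1)
    rw [h2, Finset.range_eq_Ico, ← Finset.sum_Ico_consecutive _ (Nat.zero_le r)
      (by omega : r ≤ n + 1)]
    have h3 : ∑ y ∈ Ico 0 r, bin n p y * (if y < r then (0 : ℝ) else 1) = 0 := by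
      refine Finset.sum_eq_zero fun y hy => ?_
      rw [Finset.mem_Ico] at hy
      rw [if_pos hy.2, mul_zero]
    have h4 : ∑ y ∈ Ico r (n + 1), bin n p y * (if y < r then (0 : ℝ) else 1)
        = ∑ y ∈ Ico (r - 1 + 1) (n + 1), bin n p y := by
      rw [Nat.sub_add_cancel hr1]
      refine Finset.sum_congr rfl fun y hy => ?_
      rw [Finset.mem_Ico] at hy
      rw [if_neg (by omega), mul_one]
    rw [h3, h4, zero_add]
    have h5 : ∑ y ∈ Ico (r - 1 + 1) (n + 1), bin n p y ≤ 2 * ρ * bin n p (r - 1) := by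
      refine bin_tail hp0.le (by linarith) (by omega) hρ0 hρ1 ?_
      have h6 : (((r - 1 : ℕ) : ℝ)) = r - 1 := by rw [Nat.cast_sub hr1]; simp
      rw [h6]
      have h7 : ((n : ℝ) - (r - 1)) * p ≤ a + 1 := by
        have : (n : ℝ) - (r - 1) = N₁ + 1 := by linarith
        rw [this]
        nlinarith
      have h8 : ((r : ℝ) - 1 + 1) = r := by ring
      rw [h8]
      linarith
    have h6 : bin n p (r - 1) ≤ 1 := by
      have h7 : ∑ y ∈ range (n + 1), bin n p y = 1 := by
        have h8 := sum_card (n := n) p (fun _ => (1 : ℝ))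
        simp only [mul_one] at h8
        rw [← h8]
        exact sum_wt (α := Fin n) p
      rw [← h7]
      exact Finset.single_le_sum (f := fun y => bin n p y) (fun y _ => hbin0 y)
        (Finset.mem_range.2 (by omega))
    have h9 : 2 * ρ * bin n p (r - 1) ≤ 2 * ρ * 1 :=
      mul_le_mul_of_nonneg_left h6 (by positivity)
    have h10 : 2 * ρ ≤ δ := by
      rw [hρ]; nlinarith
    linarith
  refine ⟨n, gad r 𝒟, empty_notMem_gad (by omega) 𝒟, ?_, by linarith, by linarith⟩
  by_contra hcon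
  push Not at hcon
  have h1 : 1 - prob p (gad r 𝒟) 0 ≤ 0 := by linarith
  have h2 : 0 ≤ 1 - prob p (gad r 𝒟) 0 := by
    rw [hnz]
    refine Finset.sum_nonneg fun S _ => ?_
    have h3 := wt_nonneg hp0.le (by linarith : p ≤ 1) S
    split_ifs <;> linarith
  have h3 : 1 - prob p (gad r 𝒟) 0 = 0 := le_antisymm h1 h2
  rw [h3] at hf hnz1
  linarith

end Pool.Agent.Lib.MP_eb6a62_co
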