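import Pool.Agent.Lib.MP_eb6a62_co.Gadget

/-!
The upper bound `1 / ((1 - p) e)`, and the limit of `ind_*(ℓ, p)` as `p → 0`.
-/

set_option autoImplicit false
set_option linter.unusedSectionVars false

open Finset Filter Topology

namespace Pool.Agent.Lib.MP_eb6a62_co

lemma negMulLog_le_exp {x : ℝ} (hx : 0 ≤ x) : Real.negMulLog x ≤ Real.exp (-1) := by
  rcases hx.eq_or_lt with rfl | hx
  · simp [(Real.exp_pos _).le]
  · have ht : 0 < Real.exp (-1) / x := by positivity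
    have h := Real.log_le_sub_one_of_pos ht
    rw [Real.log_div (Real.exp_pos _).ne' hx.ne', Real.log_exp] at h
    have h2 := mul_le_mul_of_nonneg_left h hx.le
    have h3 : x * (Real.exp (-1) / x - 1) = Real.exp (-1) - x := by
      field_simp
    rw [h3] at h2
    unfold Real.negMulLog
    linarith

section
variable {α : Type*} [Fintype α] [DecidableEq α]

lemma cnt_sm (𝒜 : Finset (Finset α)) : SM (cnt 𝒜) := by
  constructor
  · intro A B hAB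
    unfold cnt
    refine Finset.card_le_card fun X hX => ?_
    rw [Finset.mem_filter] at hX ⊢
    exact ⟨hX.1, hX.2.trans hAB⟩
  · intro A B
    unfold cnt
    rw [← Finset.card_union_add_card_inter]
    refine add_le_add (Finset.card_le_card fun X hX => ?_) (Finset.card_le_card fun X hX => ?_)
    · rw [Finset.mem_union, Finset.mem_filter, Finset.mem_filter] at hX
      rw [Finset.mem_filter]
      rcases hX with hX | hX
      · exact ⟨hX.1, hX.2.trans Finset.subset_union_left⟩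
      · exact ⟨hX.1, hX.2.trans Finset.subset_union_right⟩
    · rw [Finset.mem_inter, Finset.mem_filter, Finset.mem_filter] at hX
      rw [Finset.mem_filter]
      exact ⟨hX.1.1, Finset.subset_inter hX.1.2 hX.2.2⟩

lemma cnt_empty {𝒜 : Finset (Finset α)} (h : ∅ ∉ 𝒜) : cnt 𝒜 ∅ = 0 := by
  unfold cnt
  rw [Finset.card_eq_zero, Finset.filter_eq_empty_iff]
  intro A hA hA2
  rw [Finset.subset_empty] at hA2
  exact h (hA2 ▸ hA)

lemma prob_eq_pr (p : ℝ) (𝒜 : Finset (Finset α)) (ℓ : ℕ) :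
    prob p 𝒜 ℓ = pr p (fun T => cnt 𝒜 T = ℓ) ∅ univ := by
  unfold prob pr ev
  rw [Finset.powerset_univ]
  refine Finset.sum_congr rfl fun B _ => ?_
  simp only [Finset.empty_union, Finset.card_univ]
  by_cases h : cnt 𝒜 B = ℓ
  · rw [if_pos h, if_pos h, mul_one]
  · rw [if_neg h, if_neg h, mul_zero]

/-- The upper bound. -/
theorem prob_le {p : ℝ} (h0 : 0 ≤ p) (h1 : p < 1) {𝒜 : Finset (Finset α)} (hA : ∅ ∉ 𝒜)
    {ℓ : ℕ} (hℓ : 1 ≤ ℓ) : prob p 𝒜 ℓ ≤ 1 / (1 - p) * Real.exp (-1) := by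
  rw [prob_eq_pr]
  have h2 := hazard (cnt_sm 𝒜) h0 h1 ℓ univ ∅ (by rw [cnt_empty hA]; omega)
  refine h2.trans (mul_le_mul_of_nonneg_left (negMulLog_le_exp (pr_nonneg h0 h1.le _ _ _)) ?_)
  have : 0 < 1 - p := by linarith
  positivity

end

lemma bddAbove_set {p : ℝ} (h0 : 0 ≤ p) (h1 : p ≤ 1) (ℓ : ℕ) :
    BddAbove {x : ℝ | ∃ (n : ℕ) (𝒜 : Finset (Finset (Fin n))), ∅ ∉ 𝒜 ∧ x = prob p 𝒜 ℓ} := by
  refine ⟨1, ?_⟩
  rintro x ⟨n, 𝒜, _, rfl⟩
  exact prob_le_one h0 h1 𝒜 ℓ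

lemma indStar_le {p : ℝ} (h0 : 0 ≤ p) (h1 : p < 1) {ℓ : ℕ} (hℓ : 1 ≤ ℓ) :
    indStar ℓ p ≤ 1 / (1 - p) * Real.exp (-1) := by
  unfold indStar
  refine csSup_le ⟨prob p (∅ : Finset (Finset (Fin 0))) ℓ, 0, ∅, by simp, rfl⟩ ?_
  rintro x ⟨n, 𝒜, hA, rfl⟩
  exact prob_le h0 h1 hA hℓ

/-- The lower bound. -/
theorem le_indStar {ℓ : ℕ} (hℓ : 1 ≤ ℓ) {δ : ℝ} (hδ0 : 0 < δ) (hδ1 : δ < 1) :
    ∃ p₀ : ℝ, 0 < p₀ ∧ ∀ p : ℝ, 0 < p → p < p₀ →
      (1 - δ) ^ 2 * Real.exp (-1) ≤ indStar ℓ p := by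
  obtain ⟨p₀, hp₀, h⟩ := gadget hℓ hδ0 hδ1
  refine ⟨min p₀ 1, lt_min hp₀ one_pos, fun p hp0 hp => ?_⟩
  obtain ⟨n, 𝒜, hA, hq1, hq, ha⟩ := h p hp0 (lt_of_lt_of_le hp (min_le_left _ _))
  have hp1 : p ≤ 1 := (lt_of_lt_of_le hp (min_le_right _ _)).le
  obtain ⟨N, ℬ, hB, hBl⟩ := amplify hp0.le hp1 hℓ hA hδ1 hq1 hq ha
  exact hBl.trans (le_csSup (bddAbove_set hp0.le hp1 ℓ) ⟨N, ℬ, hB, rfl⟩)

/-- `ind_*(ℓ) = 1 / e`. -/
theorem tendsto_indStar {ℓ : ℕ} (hℓ : 1 ≤ ℓ) :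
    Tendsto (fun p : ℝ => indStar ℓ p) (𝓝[>] 0) (𝓝 (1 / Real.exp 1)) := by
  have he : 1 / Real.exp 1 = Real.exp (-1) := by rw [Real.exp_neg, one_div]
  rw [he, tendsto_order]
  constructor
  · intro a ha
    set c := Real.exp (-1) - a with hc
    have hc0 : 0 < c := by linarith
    have he1 : Real.exp (-1) < 1 := by
      rw [← Real.exp_zero]
      exact Real.exp_lt_exp.2 (by norm_num)
    have he0 := Real.exp_pos (-1)
    set δ := min (1 / 2) (c / 2) with hδ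
    have hδ0 : 0 < δ := lt_min (by norm_num) (by linarith)
    have hδ1 : δ ≤ 1 / 2 := min_le_left _ _
    have hδc : δ ≤ c / 2 := min_le_right _ _
    obtain ⟨p₀, hp₀, h⟩ := le_indStar hℓ hδ0 (by linarith)
    have hev : Set.Ioo (0 : ℝ) p₀ ∈ 𝓝[>] (0 : ℝ) := Ioo_mem_nhdsGT hp₀
    filter_upwards [hev] with p hp
    refine lt_of_lt_of_le ?_ (h p hp.1 hp.2)
    have h2 : a < (1 - 2 * δ) * Real.exp (-1) := by nlinarith
    have h3 : (1 - 2 * δ) * Real.exp (-1) ≤ (1 - δ) ^ 2 * Real.exp (-1) := by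
      refine mul_le_mul_of_nonneg_right ?_ he0.le
      nlinarith
    linarith
  · intro a ha
    have hcont : Tendsto (fun p : ℝ => 1 / (1 - p) * Real.exp (-1)) (𝓝[>] 0)
        (𝓝 (1 / (1 - 0) * Real.exp (-1))) := by
      refine Tendsto.mul_const _ ?_
      refine Tendsto.div tendsto_const_nhds ?_ (by norm_num)
      exact (tendsto_const_nhds.sub tendsto_id).mono_left nhdsWithin_le_nhds
    have h1 : (1 : ℝ) / (1 - 0) * Real.exp (-1) = Real.exp (-1) := by norm_num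
    rw [h1] at hcont
    have hev : Set.Ioo (0 : ℝ) 1 ∈ 𝓝[>] (0 : ℝ) := Ioo_mem_nhdsGT one_pos
    filter_upwards [hev, (tendsto_order.1 hcont).2 a ha] with p hp hpa
    exact lt_of_le_of_lt (indStar_le hp.1.le hp.2 hℓ) hpa

end Pool.Agent.Lib.MP_eb6a62_co
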