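import Mathlib

/-!
Expectations over a random subset of a finite set, revealed one element at a time, and the
hazard inequality for monotone supermodular functions.
-/

set_option autoImplicit false
set_option linter.unusedSectionVars false

open Finset

namespace Pool.Agent.Lib.MP_eb6a62_co

variable {α : Type*} [DecidableEq α]

/-- The expectation of `φ` at the random subset of `R` that contains every element of `R`
independently with probability `p`. -/
noncomputable def ev (p : ℝ) (R : Finset α) (φ : Finset α → ℝ) : ℝ :=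
  ∑ T ∈ R.powerset, p ^ T.card * (1 - p) ^ (R.card - T.card) * φ T

lemma ev_empty (p : ℝ) (φ : Finset α → ℝ) : ev p ∅ φ = φ ∅ := by
  simp [ev]

lemma ev_insert (p : ℝ) {R : Finset α} {e : α} (he : e ∉ R) (φ : Finset α → ℝ) :
    ev p (insert e R) φ = (1 - p) * ev p R φ + p * ev p R (fun T => φ (insert e T)) := by
  unfold ev
  rw [Finset.sum_powerset_insert he, Finset.mul_sum, Finset.mul_sum]
  congr 1
  · refine Finset.sum_congr rfl fun T hT => ?_
    have hT' : T.card ≤ R.card := Finset.card_le_card (Finset.mem_powerset.1 hT)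
    rw [Finset.card_insert_of_notMem he, Nat.succ_sub hT', pow_succ]
    ring
  · refine Finset.sum_congr rfl fun T hT => ?_
    have heT : e ∉ T := fun h => he (Finset.mem_powerset.1 hT h)
    rw [Finset.card_insert_of_notMem he, Finset.card_insert_of_notMem heT,
      Nat.succ_sub_succ, pow_succ]
    ring

lemma ev_const (p : ℝ) (R : Finset α) (c : ℝ) : ev p R (fun _ => c) = c := by
  induction R using Finset.induction_on with
  | empty => simp [ev_empty]
  | insert e R he ih => rw [ev_insert p he, ih]; ring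

lemma ev_mono {p : ℝ} (h0 : 0 ≤ p) (h1 : p ≤ 1) {R : Finset α} {φ ψ : Finset α → ℝ}
    (h : ∀ T ⊆ R, φ T ≤ ψ T) : ev p R φ ≤ ev p R ψ := by
  refine Finset.sum_le_sum fun T hT => ?_
  refine mul_le_mul_of_nonneg_left (h T (Finset.mem_powerset.1 hT)) ?_
  have : 0 ≤ 1 - p := by linarith
  positivity

lemma ev_nonneg {p : ℝ} (h0 : 0 ≤ p) (h1 : p ≤ 1) {R : Finset α} {φ : Finset α → ℝ}
    (h : ∀ T ⊆ R, 0 ≤ φ T) : 0 ≤ ev p R φ := by
  have := ev_mono h0 h1 h
  rwa [ev_const] at this

lemma ev_add (p : ℝ) (R : Finset α) (φ ψ : Finset α → ℝ) :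
    ev p R (fun T => φ T + ψ T) = ev p R φ + ev p R ψ := by
  unfold ev
  rw [← Finset.sum_add_distrib]
  refine Finset.sum_congr rfl fun T _ => ?_
  ring

open Classical in
/-- The probability that `S ∪ T` has the property `P`, for the random subset `T` of `R`. -/
noncomputable def pr (p : ℝ) (P : Finset α → Prop) (S R : Finset α) : ℝ :=
  ev p R (fun T => if P (S ∪ T) then 1 else 0)

lemma pr_empty (p : ℝ) (P : Finset α → Prop) (S : Finset α) [Decidable (P S)] :
    pr p P S ∅ = if P S then 1 else 0 := by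
  unfold pr
  rw [ev_empty, Finset.union_empty]
  congr

lemma pr_insert (p : ℝ) (P : Finset α → Prop) {S R : Finset α} {e : α} (he : e ∉ R) :
    pr p P S (insert e R) = (1 - p) * pr p P S R + p * pr p P (insert e S) R := by
  have h : ∀ T : Finset α, S ∪ insert e T = insert e S ∪ T := by
    intro T; ext x; simp only [Finset.mem_union, Finset.mem_insert]; tauto
  unfold pr
  rw [ev_insert p he]
  congr 2
  congr 1
  funext T
  rw [h T]

lemma pr_nonneg {p : ℝ} (h0 : 0 ≤ p) (h1 : p ≤ 1) (P : Finset α → Prop) (S R : Finset α) :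
    0 ≤ pr p P S R := by
  refine ev_nonneg h0 h1 fun T _ => ?_
  split_ifs <;> norm_num

lemma pr_le {p : ℝ} (h0 : 0 ≤ p) (h1 : p ≤ 1) {P Q : Finset α → Prop} {S S' R : Finset α}
    (h : ∀ T ⊆ R, P (S ∪ T) → Q (S' ∪ T)) : pr p P S R ≤ pr p Q S' R := by
  refine ev_mono h0 h1 fun T hT => ?_
  by_cases hP : P (S ∪ T)
  · rw [if_pos hP, if_pos (h T hT hP)]
  · rw [if_neg hP]
    split_ifs <;> norm_num

lemma pr_eq_zero {p : ℝ} {P : Finset α → Prop} {S R : Finset α}
    (h : ∀ T ⊆ R, ¬ P (S ∪ T)) : pr p P S R = 0 := by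
  unfold pr ev
  refine Finset.sum_eq_zero fun T hT => ?_
  simp [h T (Finset.mem_powerset.1 hT)]

/-- two disjoint events, both contained in a third one -/
lemma pr_add_le {p : ℝ} (h0 : 0 ≤ p) (h1 : p ≤ 1) {P P' Q : Finset α → Prop}
    {S S' R : Finset α} (h : ∀ T ⊆ R, P (S ∪ T) → Q (S' ∪ T))
    (h' : ∀ T ⊆ R, P' (S ∪ T) → Q (S' ∪ T)) (hd : ∀ T ⊆ R, P (S ∪ T) → ¬ P' (S ∪ T)) :
    pr p P S R + pr p P' S R ≤ pr p Q S' R := by
  unfold pr
  rw [← ev_add]
  refine ev_mono h0 h1 fun T hT => ?_
  by_cases hP : P (S ∪ T)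
  · rw [if_pos hP, if_neg (hd T hT hP), if_pos (h T hT hP)]; norm_num
  · rw [if_neg hP]
    by_cases hP' : P' (S ∪ T)
    · rw [if_pos hP', if_pos (h' T hT hP')]; norm_num
    · rw [if_neg hP']
      split_ifs <;> norm_num

lemma pr_add_le_one {p : ℝ} (h0 : 0 ≤ p) (h1 : p ≤ 1) {P P' : Finset α → Prop}
    {S R : Finset α} (hd : ∀ T ⊆ R, P (S ∪ T) → ¬ P' (S ∪ T)) :
    pr p P S R + pr p P' S R ≤ 1 := by
  have h2 := pr_add_le h0 h1 (P := P) (P' := P') (Q := fun _ => True) (S := S) (S' := S)
    (R := R) (fun _ _ _ => trivial) (fun _ _ _ => trivial) hd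
  refine h2.trans (le_of_eq ?_)
  unfold pr
  simp only [if_true]
  exact ev_const p R 1

/-- Monotone supermodular functions with natural number values. -/
structure SM (F : Finset α → ℕ) : Prop where
  mono : ∀ A B : Finset α, A ⊆ B → F A ≤ F B
  super : ∀ A B : Finset α, F A + F B ≤ F (A ∪ B) + F (A ∩ B)

/-- The step of revealing a present element. -/
lemma SM.step {F : Finset α → ℕ} (hF : SM F) {S R T : Finset α} {e : α} (heS : e ∉ S)
    (heR : e ∉ R) (hT : T ⊆ R) :
    F (S ∪ T) + F (insert e S) ≤ F (insert e S ∪ T) + F S := by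
  have h := hF.super (S ∪ T) (insert e S)
  have h1 : S ∪ T ∪ insert e S = insert e S ∪ T := by
    ext x; simp only [Finset.mem_union, Finset.mem_insert]; tauto
  have h2 : (S ∪ T) ∩ insert e S = S := by
    ext x
    simp only [Finset.mem_union, Finset.mem_insert, Finset.mem_inter]
    constructor
    · rintro ⟨h3 | h3, h4 | h4⟩
      · exact h3
      · exact h4
      · subst h4; exact absurd (hT h3) heR
      · exact h4
    · intro h3; exact ⟨Or.inl h3, Or.inr h3⟩
  rwa [h1, h2] at h

/-- **Hazard inequality.** -/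
theorem hazard {F : Finset α → ℕ} (hF : SM F) {p : ℝ} (h0 : 0 ≤ p) (h1 : p < 1) (j : ℕ)
    (R : Finset α) : ∀ S : Finset α, F S < j →
      pr p (fun T => F T = j) S R
        ≤ 1 / (1 - p) * Real.negMulLog (pr p (fun T => F T < j) S R) := by
  have hq : 0 < 1 - p := by linarith
  induction R using Finset.induction_on with
  | empty =>
    intro S hS
    rw [pr_empty, pr_empty, if_neg hS.ne, if_pos hS]
    simp
  | insert e R he ih =>
    intro S hS
    rw [pr_insert p _ he, pr_insert p _ he]
    set a₀ := pr p (fun T => F T = j) S R with ha₀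
    set a₁ := pr p (fun T => F T = j) (insert e S) R with ha₁
    set b₀ := pr p (fun T => F T < j) S R with hb₀
    set b₁ := pr p (fun T => F T < j) (insert e S) R with hb₁
    have hb₀n : 0 ≤ b₀ := pr_nonneg h0 h1.le _ _ _
    have hb₁n : 0 ≤ b₁ := pr_nonneg h0 h1.le _ _ _
    have i0 := ih S hS
    by_cases hj : F (insert e S) < j
    · have i1 := ih (insert e S) hj
      have hc : (1 - p) * Real.negMulLog b₀ + p * Real.negMulLog b₁
          ≤ Real.negMulLog ((1 - p) * b₀ + p * b₁) := by
        have := Real.concaveOn_negMulLog.2 (show b₀ ∈ Set.Ici (0 : ℝ) from hb₀n)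
          (show b₁ ∈ Set.Ici (0 : ℝ) from hb₁n) hq.le h0 (by ring)
        simpa only [smul_eq_mul] using this
      have hC : 0 ≤ 1 / (1 - p) := by positivity
      calc (1 - p) * a₀ + p * a₁
          ≤ (1 - p) * (1 / (1 - p) * Real.negMulLog b₀)
              + p * (1 / (1 - p) * Real.negMulLog b₁) := by
            refine add_le_add (mul_le_mul_of_nonneg_left i0 hq.le)
              (mul_le_mul_of_nonneg_left i1 h0)
        _ = 1 / (1 - p) * ((1 - p) * Real.negMulLog b₀ + p * Real.negMulLog b₁) := by ring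
        _ ≤ _ := mul_le_mul_of_nonneg_left hc hC
    · have heS : e ∉ S := by
        intro h
        rw [Finset.insert_eq_of_mem h] at hj
        exact hj hS
      push Not at hj
      have hb1 : b₁ = 0 := by
        refine pr_eq_zero fun T _ h => ?_
        have := hF.mono (insert e S) (insert e S ∪ T) Finset.subset_union_left
        omega
      have ha1 : a₁ ≤ b₀ := by
        refine pr_le h0 h1.le fun T hT h => ?_
        have := hF.step heS he hT
        omega
      rw [hb1, mul_zero, add_zero, Real.negMulLog_mul]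
      have hlog : p ≤ 1 / (1 - p) * Real.negMulLog (1 - p) := by
        unfold Real.negMulLog
        have h2 := Real.log_le_sub_one_of_pos hq
        have : 1 / (1 - p) * (-(1 - p) * Real.log (1 - p)) = - Real.log (1 - p) := by
          field_simp
        rw [this]
        linarith
      calc (1 - p) * a₀ + p * a₁
          ≤ (1 - p) * (1 / (1 - p) * Real.negMulLog b₀) + p * b₀ :=
            add_le_add (mul_le_mul_of_nonneg_left i0 hq.le)
              (mul_le_mul_of_nonneg_left ha1 h0)
        _ ≤ (1 - p) * (1 / (1 - p) * Real.negMulLog b₀)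
              + (1 / (1 - p) * Real.negMulLog (1 - p)) * b₀ := by
            gcongr
        _ = _ := by ring

end Pool.Agent.Lib.MP_eb6a62_co
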